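import Mathlib
import Pool.Agent.Helper42.Ext.Assembly
import Pool.Agent.Helper88.EXT.Lemma4

/-!
# `RCA₀ + EXT(ω*)` does not prove `ACA₀`

There is a countable family `𝒮` of sets of natural numbers such that the `ω`-model with the sets
in `𝒮` satisfies `RCA₀` and `EXT(ω*)`, while arithmetical comprehension fails in it.
-/

namespace Pool.Agent.Results.MP_9b0a74_lc.ExtOmegaStarNotACA

open Pool.Agent.Helper42.SOA

theorem result :
    ∃ 𝒮 : Set (Set ℕ), 𝒮.Countable ∧ (omegaModel 𝒮).RCA0 ∧ (omegaModel 𝒮).EXTOmegaStar ∧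
      ¬ (omegaModel 𝒮).ArithmeticalComprehension :=
  Pool.Agent.Helper42.Ext.assembly (fun U => by
    intro R hR S hRS C D hC hD hDC hdown ha hb
    exact EXT88.lemma4 hR S hRS C D hC hD hDC hdown ha hb)

end Pool.Agent.Results.MP_9b0a74_lc.ExtOmegaStarNotACA
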